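import Pool.Agent.TH931.LP.Stm

/-!
Project LP931, task A1: Fubini for `Fin.append`.
-/

set_option autoImplicit false

open MeasureTheory Set
open scoped ENNReal Matrix

noncomputable section

namespace Pool.Agent.TH543.LP931

open Pool.Agent.TH931.LP

variable {a b : ℕ}

/-- `(Fin a → ℝ) × (Fin b → ℝ) ≃ᵐ (Fin (a+b) → ℝ)` -/
def appEquiv (a b : ℕ) : (Fin a → ℝ) × (Fin b → ℝ) ≃ᵐ (Fin (a + b) → ℝ) :=
  (MeasurableEquiv.sumPiEquivProdPi (fun _ : Fin a ⊕ Fin b => ℝ)).symm.trans
    (MeasurableEquiv.piCongrLeft (fun _ : Fin (a + b) => ℝ) finSumFinEquiv)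

lemma appEquiv_apply (x : (Fin a → ℝ) × (Fin b → ℝ)) :
    appEquiv a b x = Fin.append x.1 x.2 := by
  funext i
  refine Fin.addCases (fun i => ?_) (fun j => ?_) i
  · rw [Fin.append_left]
    have h : (Fin.castAdd b i : Fin (a + b)) = finSumFinEquiv (Sum.inl i) := by simp
    rw [h]
    simp only [appEquiv, MeasurableEquiv.trans_apply, MeasurableEquiv.coe_piCongrLeft]
    rw [Equiv.piCongrLeft_apply_apply]
    rfl
  · rw [Fin.append_right]
    have h : (Fin.natAdd a j : Fin (a + b)) = finSumFinEquiv (Sum.inr j) := by simp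
    rw [h]
    simp only [appEquiv, MeasurableEquiv.trans_apply, MeasurableEquiv.coe_piCongrLeft]
    rw [Equiv.piCongrLeft_apply_apply]
    rfl

lemma appEquiv_mp (a b : ℕ) : MeasurePreserving (appEquiv a b) volume volume :=
  (volume_measurePreserving_sumPiEquivProdPi_symm (fun _ : Fin a ⊕ Fin b => ℝ)).trans
    (volume_measurePreserving_piCongrLeft (fun _ : Fin (a + b) => ℝ) finSumFinEquiv)

lemma p1_append (x : Fin a → ℝ) (y : Fin b → ℝ) : p1 (Fin.append x y) = x := by
  funext i
  simp [p1]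

lemma p2_append (x : Fin a → ℝ) (y : Fin b → ℝ) : p2 (Fin.append x y) = y := by
  funext i
  simp [p2]

lemma append_p (x : Fin (a + b) → ℝ) : Fin.append (p1 x) (p2 x) = x := by
  funext i
  refine Fin.addCases (fun i => ?_) (fun j => ?_) i
  · rw [Fin.append_left]; rfl
  · rw [Fin.append_right]; rfl

lemma appEquiv_symm_apply (x : Fin (a + b) → ℝ) : (appEquiv a b).symm x = (p1 x, p2 x) := by
  rw [MeasurableEquiv.symm_apply_eq, appEquiv_apply, append_p]

lemma measurable_p1 : Measurable (p1 : (Fin (a + b) → ℝ) → Fin a → ℝ) :=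
  measurable_pi_lambda _ fun _ => measurable_pi_apply _

lemma measurable_p2 : Measurable (p2 : (Fin (a + b) → ℝ) → Fin b → ℝ) :=
  measurable_pi_lambda _ fun _ => measurable_pi_apply _

lemma continuous_p1 : Continuous (p1 : (Fin (a + b) → ℝ) → Fin a → ℝ) :=
  continuous_pi fun _ => continuous_apply _

lemma continuous_p2 : Continuous (p2 : (Fin (a + b) → ℝ) → Fin b → ℝ) :=
  continuous_pi fun _ => continuous_apply _

lemma measurable_append :
    Measurable (fun x : (Fin a → ℝ) × (Fin b → ℝ) => (Fin.append x.1 x.2 : Fin (a + b) → ℝ)) := by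
  have h := (appEquiv a b).measurable
  have e : (fun x : (Fin a → ℝ) × (Fin b → ℝ) => (Fin.append x.1 x.2 : Fin (a + b) → ℝ)) =
      appEquiv a b := by
    funext x
    rw [appEquiv_apply]
  rw [e]
  exact h

lemma continuous_append :
    Continuous (fun x : (Fin a → ℝ) × (Fin b → ℝ) => (Fin.append x.1 x.2 : Fin (a + b) → ℝ)) := by
  refine continuous_pi fun i => ?_
  refine Fin.addCases (fun i => ?_) (fun j => ?_) i
  · simp only [Fin.append_left]
    exact (continuous_apply i).comp continuous_fst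
  · simp only [Fin.append_right]
    exact (continuous_apply j).comp continuous_snd

lemma measurable_append_right (x : Fin a → ℝ) :
    Measurable (fun y : Fin b → ℝ => (Fin.append x y : Fin (a + b) → ℝ)) :=
  measurable_append.comp (measurable_const.prodMk measurable_id)

lemma measurable_append_left (y : Fin b → ℝ) :
    Measurable (fun x : Fin a → ℝ => (Fin.append x y : Fin (a + b) → ℝ)) :=
  measurable_append.comp (measurable_id.prodMk measurable_const)

/-- measurability of `f x`, `g x` appended -/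
lemma measurable_finAppend {α : Type*} [MeasurableSpace α] {f : α → Fin a → ℝ}
    {g : α → Fin b → ℝ} (hf : Measurable f) (hg : Measurable g) :
    Measurable (fun x => (Fin.append (f x) (g x) : Fin (a + b) → ℝ)) :=
  measurable_append.comp (hf.prodMk hg)

/-- the change of variables as an integral over the product -/
lemma lintegral_append_prod (f : (Fin (a + b) → ℝ) → ℝ≥0∞) :
    ∫⁻ x, f x = ∫⁻ p : (Fin a → ℝ) × (Fin b → ℝ), f (Fin.append p.1 p.2) := by
  have h := (appEquiv_mp a b).lintegral_comp_emb (appEquiv a b).measurableEmbedding f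
  rw [← h]
  refine lintegral_congr fun p => ?_
  rw [appEquiv_apply]

/-- Fubini, `f` almost everywhere measurable -/
lemma lintegral_append_ae {f : (Fin (a + b) → ℝ) → ℝ≥0∞} (hf : AEMeasurable f) :
    ∫⁻ x, f x = ∫⁻ x1 : Fin a → ℝ, ∫⁻ x2 : Fin b → ℝ, f (Fin.append x1 x2) := by
  rw [lintegral_append_prod]
  have hf' : AEMeasurable (fun p : (Fin a → ℝ) × (Fin b → ℝ) =>
      f (Fin.append p.1 p.2 : Fin (a + b) → ℝ)) ((volume : Measure (Fin a → ℝ)).prod volume) := by
    have := hf.comp_quasiMeasurePreserving (appEquiv_mp a b).quasiMeasurePreserving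
    refine this.congr (Filter.Eventually.of_forall fun p => ?_)
    simp only [Function.comp_apply, appEquiv_apply]
  rw [Measure.volume_eq_prod]
  exact lintegral_prod _ hf'

/-- A1 -/
theorem app : S_app := fun _ _ _ hf => lintegral_append_ae hf.aemeasurable

/-- Fubini in the other order -/
theorem app_symm {f : (Fin (a + b) → ℝ) → ℝ≥0∞} (hf : Measurable f) :
    ∫⁻ x, f x = ∫⁻ x2 : Fin b → ℝ, ∫⁻ x1 : Fin a → ℝ, f (Fin.append x1 x2) := by
  rw [lintegral_append_prod, Measure.volume_eq_prod]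
  exact lintegral_prod_symm _ (hf.comp measurable_append).aemeasurable

/-- Fubini over sets -/
theorem setLIntegral_append {f : (Fin (a + b) → ℝ) → ℝ≥0∞} (hf : Measurable f)
    {A : Set (Fin (a + b) → ℝ)} (hA : MeasurableSet A) :
    ∫⁻ x in A, f x = ∫⁻ x1 : Fin a → ℝ, ∫⁻ x2 in {x2 : Fin b → ℝ | Fin.append x1 x2 ∈ A},
      f (Fin.append x1 x2) := by
  rw [← lintegral_indicator hA, app a b _ (hf.indicator hA)]
  refine lintegral_congr fun x1 => ?_
  have hm : MeasurableSet {x2 : Fin b → ℝ | (Fin.append x1 x2 : Fin (a + b) → ℝ) ∈ A} :=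
    measurable_append_right x1 hA
  rw [← lintegral_indicator hm]
  rfl

/-- Fubini over products of sets -/
theorem setLIntegral_append_prod {f : (Fin (a + b) → ℝ) → ℝ≥0∞} (hf : Measurable f)
    {A : Set (Fin a → ℝ)} {B : Set (Fin b → ℝ)} (hA : MeasurableSet A) (hB : MeasurableSet B) :
    ∫⁻ x in {x | p1 x ∈ A ∧ p2 x ∈ B}, f x =
      ∫⁻ x1 in A, ∫⁻ x2 in B, f (Fin.append x1 x2) := by
  have hAB : MeasurableSet {x : Fin (a + b) → ℝ | p1 x ∈ A ∧ p2 x ∈ B} :=
    (measurable_p1 hA).inter (measurable_p2 hB)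
  rw [← lintegral_indicator hAB, app a b _ (hf.indicator hAB), ← lintegral_indicator hA]
  refine lintegral_congr fun x1 => ?_
  by_cases h1 : x1 ∈ A
  · rw [Set.indicator_of_mem h1, ← lintegral_indicator hB]
    refine lintegral_congr fun x2 => ?_
    by_cases h2 : x2 ∈ B
    · rw [Set.indicator_of_mem h2, Set.indicator_of_mem]
      exact ⟨by rw [p1_append]; exact h1, by rw [p2_append]; exact h2⟩
    · rw [Set.indicator_of_notMem h2, Set.indicator_of_notMem]
      rintro ⟨-, h⟩
      rw [p2_append] at h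
      exact h2 h
  · rw [Set.indicator_of_notMem h1]
    have : ∀ x2 : Fin b → ℝ, ({x : Fin (a + b) → ℝ | p1 x ∈ A ∧ p2 x ∈ B}).indicator f
        (Fin.append x1 x2) = 0 := by
      intro x2
      rw [Set.indicator_of_notMem]
      rintro ⟨h, -⟩
      rw [p1_append] at h
      exact h1 h
    simp [this]

/-- integrals of products -/
theorem lintegral_append_mul {f : (Fin a → ℝ) → ℝ≥0∞} {g : (Fin b → ℝ) → ℝ≥0∞}
    (hf : Measurable f) (hg : Measurable g) :
    ∫⁻ x : Fin (a + b) → ℝ, f (p1 x) * g (p2 x) = (∫⁻ x, f x) * ∫⁻ y, g y := by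
  rw [app a b (fun x => f (p1 x) * g (p2 x)) ((hf.comp measurable_p1).mul (hg.comp measurable_p2))]
  simp only [p1_append, p2_append]
  simp only [lintegral_const_mul _ hg, lintegral_mul_const _ hf]

/-- volumes of products of sets -/
theorem volume_prod (A : Set (Fin a → ℝ)) (B : Set (Fin b → ℝ)) :
    volume {x : Fin (a + b) → ℝ | p1 x ∈ A ∧ p2 x ∈ B} = volume A * volume B := by
  have h := (appEquiv_mp a b).measure_preimage_equiv {x : Fin (a + b) → ℝ | p1 x ∈ A ∧ p2 x ∈ B}
  rw [← h]
  have e : appEquiv a b ⁻¹' {x : Fin (a + b) → ℝ | p1 x ∈ A ∧ p2 x ∈ B} = A ×ˢ B := by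
    ext p
    simp only [mem_preimage, mem_ofPred_eq, appEquiv_apply, p1_append, p2_append, mem_prod]
  rw [e, Measure.volume_eq_prod, Measure.prod_prod]

/-- the same for Bochner integrals -/
theorem integral_append {E : Type*} [NormedAddCommGroup E] [NormedSpace ℝ E]
    {f : (Fin (a + b) → ℝ) → E} (hf : Integrable f) :
    ∫ x, f x = ∫ x1 : Fin a → ℝ, ∫ x2 : Fin b → ℝ, f (Fin.append x1 x2) := by
  have h := (appEquiv_mp a b).integral_comp (appEquiv a b).measurableEmbedding f
  have hi := ((appEquiv_mp a b).integrable_comp_emb (appEquiv a b).measurableEmbedding).2 hf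
  rw [← h]
  have e : (fun p => f (appEquiv a b p)) = fun p : (Fin a → ℝ) × (Fin b → ℝ) =>
      f (Fin.append p.1 p.2) := by
    funext p
    rw [appEquiv_apply]
  have e' : f ∘ appEquiv a b = fun p : (Fin a → ℝ) × (Fin b → ℝ) =>
      f (Fin.append p.1 p.2) := e
  rw [e]
  rw [e', Measure.volume_eq_prod] at hi
  rw [Measure.volume_eq_prod, integral_prod _ hi]

end Pool.Agent.TH543.LP931
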